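import Pool.Agent.Helper98.GX.St

/-!
# Project GX, module RNK: comparison of the ranks of two class groups
-/

set_option autoImplicit false

open scoped BigOperators

namespace Pool.Agent.Helper7.GX

open Pool.Agent.Helper98.GX
open Pool.Agent.Helper53.CX (DivVal LinSys IsNefCartier)

section

variable {K : Type} [Field K] [Algebra ℂ K]

/-- the map `g ↦ rdiv g` -/
private noncomputable def rL : (K →₀ ℝ) →ₗ[ℝ] (DivVal K → ℝ) :=
  LinearMap.pi fun v => Finsupp.linearCombination ℝ fun f : K => (v.ord f : ℝ)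

private lemma rL_apply (g : K →₀ ℝ) (v : DivVal K) : rL g v = rdiv g v := by
  simp [rL, rdiv, Finsupp.linearCombination_apply]

/-- the divisor with coefficients from `D i` on `S0` and free coefficients at `T` -/
private noncomputable def EE (S0 : Set (DivVal K)) (T : Finset (DivVal K)) {m : ℕ}
    (D : Fin m → (S0 →₀ ℝ)) : ((Fin m → ℝ) × (T → ℝ)) →ₗ[ℝ] (DivVal K →₀ ℝ) :=
  LinearMap.coprod
    (Fintype.linearCombination ℝ fun i => Finsupp.mapDomain (Subtype.val : S0 → DivVal K) (D i))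
    (Fintype.linearCombination ℝ fun t : T => Finsupp.single t.1 (1 : ℝ))

private lemma EE_apply (S0 : Set (DivVal K)) (T : Finset (DivVal K)) {m : ℕ}
    (D : Fin m → (S0 →₀ ℝ)) (u : (Fin m → ℝ) × (T → ℝ)) (v : DivVal K) :
    EE S0 T D u v = ∑ i, u.1 i * (Finsupp.mapDomain (Subtype.val : S0 → DivVal K) (D i)) v +
      ∑ t : T, u.2 t * (Finsupp.single t.1 (1 : ℝ)) v := by
  rw [EE, LinearMap.coprod_apply, Fintype.linearCombination_apply,
    Fintype.linearCombination_apply, Finsupp.add_apply, Finsupp.finset_sum_apply,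
    Finsupp.finset_sum_apply]
  simp only [Finsupp.smul_apply, smul_eq_mul]

private lemma EE_S0 (S0 : Set (DivVal K)) (T : Finset (DivVal K)) (hT : ∀ t ∈ T, t ∉ S0) {m : ℕ}
    (D : Fin m → (S0 →₀ ℝ)) (u : (Fin m → ℝ) × (T → ℝ)) (v : S0) :
    EE S0 T D u v.1 = (∑ i, u.1 i • D i) v := by
  rw [EE_apply, Finsupp.finset_sum_apply]
  have h2 : ∑ t : T, u.2 t * (Finsupp.single t.1 (1 : ℝ)) v.1 = 0 := by
    refine Finset.sum_eq_zero fun t _ => ?_
    have : t.1 ≠ v.1 := fun h => hT t.1 t.2 (h ▸ v.2)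
    rw [Finsupp.single_eq_of_ne' this, mul_zero]
  rw [h2, add_zero]
  refine Finset.sum_congr rfl fun i _ => ?_
  rw [Finsupp.mapDomain_apply Subtype.val_injective, Finsupp.smul_apply, smul_eq_mul]

private lemma EE_T (S0 : Set (DivVal K)) (T : Finset (DivVal K)) (hT : ∀ t ∈ T, t ∉ S0) {m : ℕ}
    (D : Fin m → (S0 →₀ ℝ)) (u : (Fin m → ℝ) × (T → ℝ)) (t : T) :
    EE S0 T D u t.1 = u.2 t := by
  classical
  rw [EE_apply]
  have h1 : ∑ i, u.1 i * (Finsupp.mapDomain (Subtype.val : S0 → DivVal K) (D i)) t.1 = 0 := by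
    refine Finset.sum_eq_zero fun i _ => ?_
    rw [Finsupp.mapDomain_notin_range, mul_zero]
    rw [Subtype.range_coe]
    exact hT t.1 t.2
  rw [h1, zero_add, Finset.sum_eq_single t]
  · rw [Finsupp.single_eq_same, mul_one]
  · intro s _ hst
    have : s.1 ≠ t.1 := fun h => hst (Subtype.ext h)
    rw [Finsupp.single_eq_of_ne' this, mul_zero]
  · intro h
    exact absurd (Finset.mem_univ t) h

/-- the pairs of a coefficient vector and a principal divisor which agree on `S` -/
private noncomputable def WW (S0 S : Set (DivVal K)) (T : Finset (DivVal K)) {m : ℕ}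
    (D : Fin m → (S0 →₀ ℝ)) :
    Submodule ℝ (((Fin m → ℝ) × (T → ℝ)) × (DivVal K → ℝ)) where
  carrier := {w | w.2 ∈ LinearMap.range (rL (K := K)) ∧ ∀ v ∈ S, EE S0 T D w.1 v = w.2 v}
  add_mem' := by
    rintro w w' ⟨h1, h2⟩ ⟨h1', h2'⟩
    refine ⟨add_mem h1 h1', fun v hv => ?_⟩
    rw [Prod.fst_add, map_add, Finsupp.add_apply, h2 v hv, h2' v hv]
    rfl
  zero_mem' := by
    refine ⟨zero_mem _, fun v _ => ?_⟩
    rw [Prod.fst_zero, map_zero]
    rfl
  smul_mem' := by
    rintro c w ⟨h1, h2⟩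
    refine ⟨Submodule.smul_mem _ c h1, fun v hv => ?_⟩
    rw [Prod.smul_fst, map_smul, Finsupp.smul_apply, h2 v hv]
    rfl

end

theorem hRNK (hCST : StCST) : StRNK := by
  classical
  intro K _ _ V0 V T Q ρ0 ρ hT hQ h0 h1
  haveI : Module.Finite ℝ (Cl V0.primes) := Module.finite_of_rank_eq_nat h0
  haveI : Module.Finite ℝ (Cl V.primes) := Module.finite_of_rank_eq_nat h1
  have f0 : Module.finrank ℝ (Cl V0.primes) = ρ0 := Module.finrank_eq_of_rank_eq h0
  have f1 : Module.finrank ℝ (Cl V.primes) = ρ := Module.finrank_eq_of_rank_eq h1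
  let b := Module.finBasisOfFinrankEq ℝ (Cl V0.primes) f0
  choose D hD using fun i => (princ V0.primes).mkQ_surjective (b i)
  have hTn : ∀ t ∈ T, t ∉ V0.primes := fun t ht => (hT t ht).2
  let W := WW V0.primes V.primes T D
  -- the restriction to `Q`
  let p2 : W →ₗ[ℝ] (Q → ℝ) :=
    { toFun := fun w q => w.1.2 q.1 - EE V0.primes T D w.1.1 q.1
      map_add' := by
        intro w w'
        funext q
        simp only [Submodule.coe_add, Prod.fst_add, Prod.snd_add, map_add, Finsupp.add_apply,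
          Pi.add_apply]
        ring
      map_smul' := by
        intro c w
        funext q
        simp only [Submodule.coe_smul, Prod.smul_fst, Prod.smul_snd, map_smul, Finsupp.smul_apply,
          Pi.smul_apply, smul_eq_mul, RingHom.id_apply]
        ring }
  have hp2 : Function.Injective p2 := by
    rw [← LinearMap.ker_eq_bot, LinearMap.ker_eq_bot']
    rintro ⟨⟨u, r⟩, ⟨g, hg⟩, hr⟩ hw
    have hg' : ∀ v, rdiv g v = r v := fun v => by rw [← rL_apply, hg]
    have hq : ∀ q : Q, r q.1 - EE V0.primes T D u q.1 = 0 := fun q => congrFun hw q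
    have hall : ∀ v ∈ V0.primes, EE V0.primes T D u v = r v := by
      intro v hv
      by_cases hvS : v ∈ V.primes
      · exact hr v hvS
      · have := hq ⟨v, hQ v hv hvS⟩
        linarith
    have hmem : (∑ i, u.1 i • D i) ∈ princ V0.primes := by
      refine ⟨g, fun v => ?_⟩
      rw [← EE_S0 V0.primes T hTn D u v, hall v.1 v.2, hg']
    have hsum : ∑ i, u.1 i • b i = 0 := by
      have : (princ V0.primes).mkQ (∑ i, u.1 i • D i) = 0 := by
        rw [← LinearMap.mem_ker, Submodule.ker_mkQ]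
        exact hmem
      rw [map_sum] at this
      rw [← this]
      refine Finset.sum_congr rfl fun i _ => ?_
      rw [map_smul, hD]
    have hc : ∀ i, u.1 i = 0 := fun i =>
      (Fintype.linearIndependent_iff.1 b.linearIndependent) u.1 hsum i
    have hr0 : ∀ v ∈ V0.primes, rdiv g v = 0 := by
      intro v hv
      rw [hg', ← hall v hv, EE_S0 V0.primes T hTn D u ⟨v, hv⟩]
      simp [hc]
    have hr1 : ∀ v, r v = 0 := fun v => by rw [← hg']; exact hCST K V0 g hr0 v
    have hd : ∀ t : T, u.2 t = 0 := by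
      intro t
      rw [← EE_T V0.primes T hTn D u t]
      exact (hr t.1 (hT t.1 t.2).1).trans (hr1 t.1)
    have hu : u = 0 := Prod.ext (funext hc) (funext hd)
    have hrr : r = 0 := funext hr1
    apply Subtype.ext
    change ((u, r) : ((Fin ρ0 → ℝ) × (T → ℝ)) × (DivVal K → ℝ)) = 0
    rw [hu, hrr]
    rfl
  haveI : Module.Finite ℝ W := Module.Finite.of_injective p2 hp2
  have hW : Module.finrank ℝ W ≤ Q.card := by
    have := LinearMap.finrank_le_finrank_of_injective hp2
    rwa [Module.finrank_fintype_fun_eq_card, Fintype.card_coe] at this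
  -- the map to the class group of `V`
  let β : ((Fin ρ0 → ℝ) × (T → ℝ)) →ₗ[ℝ] Cl V.primes :=
    (princ V.primes).mkQ ∘ₗ Finsupp.lsubtypeDomain V.primes ∘ₗ EE V0.primes T D
  let p1 : W →ₗ[ℝ] ((Fin ρ0 → ℝ) × (T → ℝ)) := (LinearMap.fst ℝ _ _) ∘ₗ W.subtype
  have hker : LinearMap.ker β ≤ LinearMap.range p1 := by
    intro u hu
    have hu' : (princ V.primes).mkQ ((Finsupp.lsubtypeDomain V.primes :
        (DivVal K →₀ ℝ) →ₗ[ℝ] (V.primes →₀ ℝ)) (EE V0.primes T D u)) = 0 := hu
    rw [← LinearMap.mem_ker, Submodule.ker_mkQ] at hu'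
    obtain ⟨g, hg⟩ := hu'
    have hmemW : ((u, rL g) : ((Fin ρ0 → ℝ) × (T → ℝ)) × (DivVal K → ℝ)) ∈ W := by
      refine ⟨⟨g, rfl⟩, fun v hv => ?_⟩
      have := hg ⟨v, hv⟩
      rw [Finsupp.lsubtypeDomain_apply, Finsupp.subtypeDomain_apply] at this
      change EE V0.primes T D u v = rL g v
      rw [rL_apply]
      exact this
    exact ⟨⟨_, hmemW⟩, rfl⟩
  have hk : Module.finrank ℝ (LinearMap.ker β) ≤ Q.card :=
    (Submodule.finrank_mono hker).trans ((LinearMap.finrank_range_le p1).trans hW)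
  have hr : Module.finrank ℝ (LinearMap.range β) ≤ ρ := by
    rw [← f1]
    exact Submodule.finrank_le _
  have hdim := LinearMap.finrank_range_add_finrank_ker β
  rw [Module.finrank_prod, Module.finrank_fin_fun, Module.finrank_fintype_fun_eq_card,
    Fintype.card_coe] at hdim
  omega

end Pool.Agent.Helper7.GX
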