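import Pool.Agent.Helper98.GX.St4
import Pool.Agent.Helper53.CX.M_Ext
import Pool.Agent.Helper53.CX.M_Pad
import Pool.Agent.Helper53.CX.M_PadV
import Pool.Agent.Helper53.CX.M_Fac

/-!
# Project GX, module TPR: the prime divisors of the torus
-/

set_option autoImplicit false

open scoped BigOperators
open MvPolynomial

namespace Pool.Agent.Helper7.GX

open Pool.Agent.Helper98.GX
open Pool.Agent.Helper53.CX (DivVal LinSys IsNefCartier Pn Kn x padOrd TorusPrime hExt hPad
  Fac_IsOrd Fac_one Fac_inv Fac_pow Fac_padOrd Fac_padOrd_notdvd Fac_padOrd_self Fac_aM_ne Fac_x_ne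
  PadV_fin extOrd)

/-- the monomials -/
private noncomputable def MS (n : ℕ) : Submonoid (Pn n) := Submonoid.closure (Set.range X)

private theorem MS_X {n : ℕ} (j : Fin n) : (X j : Pn n) ∈ MS n := Submonoid.subset_closure ⟨j, rfl⟩

private theorem MS_ne {n : ℕ} (M : Pn n) (hM : M ∈ MS n) : M ≠ 0 := by
  unfold MS at hM
  induction hM using Submonoid.closure_induction with
  | mem a ha => obtain ⟨j, rfl⟩ := ha; exact X_ne_zero j
  | one => exact one_ne_zero
  | mul a b _ _ ha hb => exact mul_ne_zero ha hb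

private theorem MS_ndvd {n : ℕ} (P : Pn n) (hP : TorusPrime P) (M : Pn n) (hM : M ∈ MS n) :
    ¬ P ∣ M := by
  unfold MS at hM
  induction hM using Submonoid.closure_induction with
  | mem a ha =>
    obtain ⟨j, rfl⟩ := ha
    intro h
    exact hP.2 j (hP.1.associated_of_dvd (MvPolynomial.X_prime (R := ℂ) (i := j)).irreducible h)
  | one => intro h; exact hP.1.not_isUnit (isUnit_of_dvd_one h)
  | mul a b _ _ ha hb =>
    intro h
    rcases hP.1.prime.dvd_or_dvd h with h1 | h1
    · exact ha h1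
    · exact hb h1

/-- a Laurent polynomial -/
private def Lau {n : ℕ} (g : Kn n) : Prop :=
  ∃ M ∈ MS n, ∃ p : Pn n, g * algebraMap (Pn n) (Kn n) M = algebraMap (Pn n) (Kn n) p

variable {K : Type} [Field K] [Algebra ℂ K] {n : ℕ}

private theorem lau_of_mem (L : LogCoord K n) (σ : Kn n ≃ₐ[ℂ] K) (hσ : ∀ j, σ (x j) = L.z j)
    (f : K) (hf : f ∈ torusRing L.z) : Lau (σ.symm f) := by
  unfold torusRing at hf
  have hx : ∀ j, σ.symm (L.z j) = x j := fun j => by rw [← hσ j]; exact σ.symm_apply_apply _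
  induction hf using Algebra.adjoin_induction with
  | mem a ha =>
    rcases ha with ⟨j, rfl⟩ | ⟨j, rfl⟩
    · refine ⟨1, one_mem _, X j, ?_⟩
      rw [hx j, map_one, mul_one]
      rfl
    · refine ⟨X j, MS_X j, 1, ?_⟩
      show σ.symm (L.z j)⁻¹ * algebraMap (Pn n) (Kn n) (X j) = algebraMap (Pn n) (Kn n) 1
      rw [map_inv₀, hx j, map_one]
      exact inv_mul_cancel₀ (Fac_x_ne j)
  | algebraMap r =>
    refine ⟨1, one_mem _, C r, ?_⟩
    rw [map_one, mul_one, AlgEquiv.commutes]
    exact Pool.Agent.Helper53.CX.Fac_C r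
  | add a b _ _ ha hb =>
    obtain ⟨M, hM, p, hp⟩ := ha
    obtain ⟨M', hM', p', hp'⟩ := hb
    refine ⟨M * M', mul_mem hM hM', p * M' + p' * M, ?_⟩
    rw [map_add, map_add, map_mul, map_mul, map_mul, ← hp, ← hp']
    ring
  | mul a b _ _ ha hb =>
    obtain ⟨M, hM, p, hp⟩ := ha
    obtain ⟨M', hM', p', hp'⟩ := hb
    refine ⟨M * M', mul_mem hM hM', p * p', ?_⟩
    rw [map_mul, map_mul, map_mul, ← hp, ← hp']
    ring

private theorem mem_of_poly (L : LogCoord K n) (σ : Kn n ≃ₐ[ℂ] K) (hσ : ∀ j, σ (x j) = L.z j)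
    (p : Pn n) : σ (algebraMap (Pn n) (Kn n) p) ∈ torusRing L.z := by
  induction p using MvPolynomial.induction_on with
  | C a =>
    rw [← Pool.Agent.Helper53.CX.Fac_C, AlgEquiv.commutes]
    exact Subalgebra.algebraMap_mem _ a
  | add p q hp hq => rw [map_add, map_add]; exact add_mem hp hq
  | mul_X p j hp =>
    rw [map_mul, map_mul]
    refine mul_mem hp ?_
    have e : σ (algebraMap (Pn n) (Kn n) (X j)) = L.z j := hσ j
    rw [e]
    exact Algebra.subset_adjoin (Or.inl ⟨j, rfl⟩)

private theorem dir1 (L : LogCoord K n) (σ : Kn n ≃ₐ[ℂ] K) (hσ : ∀ j, σ (x j) = L.z j)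
    (v : DivVal K) (hv : IsPrimeOf (torusRing L.z) v) :
    ∃ P : Pn n, TorusPrime P ∧ ∀ f, v.ord (σ f) = padOrd P f := by
  obtain ⟨h1, h2⟩ := hv
  set w : Kn n → ℤ := fun g => v.ord (σ g) with hw
  have σne : ∀ g : Kn n, g ≠ 0 → σ g ≠ 0 := fun g hg h => hg (by
    have := congrArg σ.symm h
    rwa [σ.symm_apply_apply, map_zero] at this)
  have ho : Fac_IsOrd w := fun f g hf hg => by
    show v.ord (σ (f * g)) = _
    rw [map_mul]
    exact v.ord_mul _ _ (σne f hf) (σne g hg)
  set A : Pn n → Kn n := fun p => algebraMap (Pn n) (Kn n) p with hA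
  have Ane : ∀ p : Pn n, p ≠ 0 → A p ≠ 0 := fun p hp => Fac_aM_ne p hp
  have hAm : ∀ p q : Pn n, A (p * q) = A p * A q := fun p q => map_mul _ p q
  have wm : ∀ p q : Pn n, p ≠ 0 → q ≠ 0 → w (A (p * q)) = w (A p) + w (A q) := fun p q hp hq => by
    rw [hAm]; exact ho _ _ (Ane p hp) (Ane q hq)
  have wpos : ∀ p : Pn n, 0 ≤ w (A p) := fun p => h1 _ (mem_of_poly L σ hσ p)
  have wu : ∀ p : Pn n, IsUnit p → w (A p) = 0 := by
    intro p hp
    obtain ⟨q, hq⟩ := hp.exists_right_inv
    have hp0 : p ≠ 0 := hp.ne_zero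
    have hq0 : q ≠ 0 := fun h => by rw [h, mul_zero] at hq; exact zero_ne_one hq
    have e := wm p q hp0 hq0
    rw [hq] at e
    have e1 : w (A 1) = 0 := by
      show w (algebraMap (Pn n) (Kn n) 1) = 0
      rw [map_one]; exact Fac_one ho
    have := wpos p
    have := wpos q
    omega
  have wX : ∀ j, w (A (X j)) = 0 := by
    intro j
    have e1 := wpos (X j)
    have hz : σ (A (X j)) = L.z j := hσ j
    have e2 : 0 ≤ v.ord (L.z j)⁻¹ := h1 _ (Algebra.subset_adjoin (Or.inr ⟨j, rfl⟩))
    have e3 : w (A (X j))⁻¹ = - w (A (X j)) := Fac_inv ho _ (Ane _ (X_ne_zero j))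
    have e4 : w (A (X j))⁻¹ = v.ord (L.z j)⁻¹ := by
      show v.ord (σ (A (X j))⁻¹) = _
      rw [map_inv₀, hz]
    omega
  have wM : ∀ M ∈ MS n, w (A M) = 0 := by
    intro M hM
    have hM' := hM
    unfold MS at hM
    induction hM using Submonoid.closure_induction with
    | mem a ha => obtain ⟨j, rfl⟩ := ha; exact wX j
    | one => exact wu 1 isUnit_one
    | mul a b ha hb ia ib => rw [wm a b (MS_ne a ha) (MS_ne b hb), ia ha, ib hb, add_zero]
  -- an irreducible polynomial of positive order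
  have hex : ∃ P : Pn n, Irreducible P ∧ 0 < w (A P) := by
    obtain ⟨t, ht0, ht⟩ := v.exists_one
    obtain ⟨a, b, hb, hab⟩ := IsFractionRing.div_surjective (A := Pn n) (σ.symm t)
    have hb0 : b ≠ 0 := nonZeroDivisors.ne_zero hb
    have hs0 : σ.symm t ≠ 0 := fun h => ht0 (by
      have := congrArg σ h
      rwa [σ.apply_symm_apply, map_zero] at this)
    have hbK := Ane b hb0
    have hgb : σ.symm t * A b = A a := by
      rw [← hab]; exact div_mul_cancel₀ _ hbK
    have ha0 : a ≠ 0 := by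
      intro h
      rw [h] at hgb
      have : A 0 = 0 := map_zero (algebraMap (Pn n) (Kn n))
      rw [this] at hgb
      exact (mul_ne_zero hs0 hbK) hgb
    have e := ho _ _ hs0 hbK
    rw [hgb] at e
    have e1 : w (σ.symm t) = 1 := by
      show v.ord (σ (σ.symm t)) = 1
      rw [σ.apply_symm_apply]; exact ht
    have e2 := wpos b
    have ha1 : 0 < w (A a) := by omega
    clear e e1 e2 hgb hab
    revert ha1
    refine WfDvdMonoid.induction_on_irreducible (motive := fun a : Pn n => a ≠ 0 → 0 < w (A a) →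
      ∃ P : Pn n, Irreducible P ∧ 0 < w (A P)) a ?_ ?_ ?_ ha0
    · intro h; exact absurd rfl h
    · intro u hu _ h
      rw [wu u hu] at h
      exact absurd h (lt_irrefl _)
    · intro a i ha hi ih _ h
      rw [wm i a hi.ne_zero ha] at h
      by_cases hi1 : 0 < w (A i)
      · exact ⟨i, hi, hi1⟩
      · exact ih ha (by have := wpos i; omega)
  obtain ⟨P, hP, hP1⟩ := hex
  have wdvd : ∀ q : Pn n, q ≠ 0 → P ∣ q → 0 < w (A q) := by
    rintro q hq ⟨r, rfl⟩
    have hr : r ≠ 0 := right_ne_zero_of_mul hq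
    rw [wm P r hP.ne_zero hr]
    have := wpos r
    omega
  have hMP : ∀ M ∈ MS n, ¬ P ∣ M := fun M hM h => by
    have := wdvd M (MS_ne M hM) h
    rw [wM M hM] at this
    exact lt_irrefl _ this
  have hT : TorusPrime P := by
    refine ⟨hP, fun j h => ?_⟩
    exact hMP (X j) (MS_X j) h.dvd
  have hPp : Prime P := hP.prime
  -- the polynomials prime to P have order zero
  have hzero : ∀ p : Pn n, p ≠ 0 → ¬ P ∣ p → w (A p) = 0 := by
    intro p hp hnd
    by_contra hne
    have hpos : 0 < w (A p) := lt_of_le_of_ne (wpos p) (Ne.symm hne)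
    -- a fraction of elements of the ring
    have key : ∀ g : Kn n, g ≠ 0 → 0 ≤ w g → ∃ a b M M' : Pn n, M ∈ MS n ∧ M' ∈ MS n ∧
        b ≠ 0 ∧ w (A b) = 0 ∧ g * A b * A M = A a * A M' := by
      intro g hg hg1
      obtain ⟨a, ha, b, hb, hb0, hb1, hab⟩ := h2 (σ g) (σne g hg) hg1
      obtain ⟨M, hM, p, hp⟩ := lau_of_mem L σ hσ a ha
      obtain ⟨M', hM', p', hp'⟩ := lau_of_mem L σ hσ b hb
      have hs0 : σ.symm b ≠ 0 := fun h => hb0 (by
        have := congrArg σ h
        rwa [σ.apply_symm_apply, map_zero] at this)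
      have hpp : p' ≠ 0 := by
        intro h
        rw [h, map_zero] at hp'
        exact (mul_ne_zero hs0 (Ane M' (MS_ne M' hM'))) hp'
      refine ⟨p, p', M, M', hM, hM', hpp, ?_, ?_⟩
      · have e : w (σ.symm b * A M') = w (A p') := congrArg w hp'
        rw [ho _ _ hs0 (Ane M' (MS_ne M' hM')), wM M' hM'] at e
        rw [← e]
        show v.ord (σ (σ.symm b)) + 0 = 0
        rw [σ.apply_symm_apply, hb1]
        rfl
      · have e2 : σ.symm b * g = σ.symm a := by
          rw [← hab, map_mul, σ.symm_apply_apply]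
        show g * algebraMap (Pn n) (Kn n) p' * A M = algebraMap (Pn n) (Kn n) p * A M'
        rw [← hp', ← hp, ← e2]
        show g * (σ.symm b * A M') * A M = σ.symm b * g * A M * A M'
        ring
    have Ainj : ∀ a b : Pn n, A a = A b → a = b := fun a b h => IsFractionRing.injective (Pn n) (Kn n) h
    have hPK := Ane P hP.ne_zero
    have hpK := Ane p hp
    rcases le_total (w (A P)) (w (A p)) with hle | hle
    · -- p / P
      have hg : A p / A P ≠ 0 := div_ne_zero hpK hPK
      have hg1 : 0 ≤ w (A p / A P) := by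
        rw [div_eq_mul_inv, ho _ _ hpK (inv_ne_zero hPK), Fac_inv ho _ hPK]
        omega
      obtain ⟨a, b, M, M', hM, hM', hb, hb1, e⟩ := key _ hg hg1
      have e1 : p * b * M = P * (a * M') := by
        apply Ainj
        rw [hAm, hAm, hAm, hAm, ← e]
        field_simp
      have hd : P ∣ p * b * M := ⟨_, e1⟩
      rcases hPp.dvd_or_dvd hd with hd | hd
      · rcases hPp.dvd_or_dvd hd with hd | hd
        · exact hnd hd
        · have := wdvd b hb hd
          omega
      · exact hMP M hM hd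
    · -- P / p
      have hg : A P / A p ≠ 0 := div_ne_zero hPK hpK
      have hg1 : 0 ≤ w (A P / A p) := by
        rw [div_eq_mul_inv, ho _ _ hPK (inv_ne_zero hpK), Fac_inv ho _ hpK]
        omega
      obtain ⟨a, b, M, M', hM, hM', hb, hb1, e⟩ := key _ hg hg1
      have e1 : P * (b * M) = p * a * M' := by
        apply Ainj
        rw [hAm, hAm, hAm, hAm]
        have e2 : A P * (A b * A M) = A p * (A P / A p * A b * A M) := by
          field_simp
        rw [e2, e]
        ring
      have hd : P ∣ p * a * M' := ⟨_, e1.symm⟩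
      rcases hPp.dvd_or_dvd hd with hd | hd
      · rcases hPp.dvd_or_dvd hd with hd | hd
        · exact hnd hd
        · obtain ⟨a', rfl⟩ := hd
          have e3 : b * M = p * a' * M' := by
            apply mul_left_cancel₀ hP.ne_zero
            rw [e1]; ring
          have hbM : b * M ≠ 0 := mul_ne_zero hb (MS_ne M hM)
          have e4 := wm b M hb (MS_ne M hM)
          rw [e3] at e4 hbM
          have h5 : p * a' ≠ 0 := left_ne_zero_of_mul hbM
          rw [wm _ _ h5 (MS_ne M' hM'), wm p a' hp (right_ne_zero_of_mul h5), wM M hM,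
            wM M' hM', hb1] at e4
          have := wpos a'
          omega
      · exact hMP M' hM' hd
  obtain ⟨po, pal⟩ := Fac_padOrd hExt hPad P hP
  have hpoly : ∀ p : Pn n, p ≠ 0 → w (A p) = padOrd P (A p) * w (A P) := by
    intro p hp
    obtain ⟨q, hq, hnq⟩ := (PadV_fin hP hp).exists_eq_pow_mul_and_not_dvd
    have hq0 : q ≠ 0 := fun h => hnq (h ▸ dvd_zero P)
    have hPk : P ^ multiplicity P p ≠ 0 := pow_ne_zero _ hP.ne_zero
    have e1 : w (A p) = w (A (P ^ multiplicity P p)) + w (A q) := by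
      conv_lhs => rw [hq]
      exact wm _ _ hPk hq0
    have e2 : w (A (P ^ multiplicity P p)) = (multiplicity P p : ℤ) * w (A P) := by
      have : A (P ^ multiplicity P p) = A P ^ multiplicity P p := map_pow _ _ _
      rw [this]
      exact Fac_pow ho _ (Ane P hP.ne_zero) _
    have e3 : padOrd P (A p) = (multiplicity P p : ℤ) := pal p hp
    rw [e1, e2, e3, hzero q hq0 hnq, add_zero]
  have hall : ∀ g : Kn n, g ≠ 0 → w g = padOrd P g * w (A P) := by
    intro g hg
    obtain ⟨a, b, hb, hab⟩ := IsFractionRing.div_surjective (A := Pn n) g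
    have hb0 : b ≠ 0 := nonZeroDivisors.ne_zero hb
    have hbK := Ane b hb0
    have hgb : g * A b = A a := by
      rw [← hab]; exact div_mul_cancel₀ _ hbK
    have ha0 : a ≠ 0 := by
      intro h
      rw [h] at hgb
      have : A 0 = 0 := map_zero (algebraMap (Pn n) (Kn n))
      rw [this] at hgb
      exact (mul_ne_zero hg hbK) hgb
    have e1 := ho _ _ hg hbK
    have e2 := po _ _ hg hbK
    rw [hgb] at e1 e2
    have e3 := hpoly a ha0
    have e4 := hpoly b hb0
    have e5 : w g = w (A a) - w (A b) := by omega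
    have e6 : padOrd P g = padOrd P (A a) - padOrd P (A b) := by omega
    rw [e5, e6, e3, e4]
    ring
  have hone : w (A P) = 1 := by
    obtain ⟨t, ht0, ht⟩ := v.exists_one
    have hs0 : σ.symm t ≠ 0 := fun h => ht0 (by
      have := congrArg σ h
      rwa [σ.apply_symm_apply, map_zero] at this)
    have e := hall _ hs0
    have e1 : w (σ.symm t) = 1 := by
      show v.ord (σ (σ.symm t)) = 1
      rw [σ.apply_symm_apply]; exact ht
    rw [e1] at e
    exact Int.eq_one_of_dvd_one hP1.le ⟨padOrd P (σ.symm t), by rw [mul_comm]; exact e⟩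
  refine ⟨P, hT, fun f => ?_⟩
  by_cases hf : f = 0
  · subst hf
    rw [map_zero, v.ord_zero]
    unfold padOrd extOrd
    rw [if_pos rfl]
  · have e := hall f hf
    rw [hone, mul_one] at e
    exact e

private theorem dir2 (L : LogCoord K n) (σ : Kn n ≃ₐ[ℂ] K) (hσ : ∀ j, σ (x j) = L.z j)
    (v : DivVal K) (P : Pn n) (hP : TorusPrime P) (hv : ∀ f, v.ord (σ f) = padOrd P f) :
    IsPrimeOf (torusRing L.z) v := by
  obtain ⟨po, pal⟩ := Fac_padOrd hExt hPad P hP.1
  have inj : ∀ p : Pn n, algebraMap (Pn n) (Kn n) p = 0 → p = 0 := fun p h =>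
    IsFractionRing.to_map_eq_zero_iff.1 h
  constructor
  · intro f hf
    by_cases hf0 : f = 0
    · rw [hf0, v.ord_zero]
    obtain ⟨M, hM, p, hp⟩ := lau_of_mem L σ hσ f hf
    have hs0 : σ.symm f ≠ 0 := fun h => hf0 (by
      have := congrArg σ h
      rwa [σ.apply_symm_apply, map_zero] at this)
    have hMK := Fac_aM_ne M (MS_ne M hM)
    have hp0 : p ≠ 0 := by
      intro h
      rw [h, map_zero] at hp
      exact (mul_ne_zero hs0 hMK) hp
    have e := po _ _ hs0 hMK
    rw [hp, pal p hp0, Fac_padOrd_notdvd hExt hPad P hP.1 M (MS_ne M hM) (MS_ndvd P hP M hM),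
      ← hv, σ.apply_symm_apply] at e
    rw [add_zero] at e
    rw [← e]
    exact Int.natCast_nonneg _
  · intro f hf hord
    have hs0 : σ.symm f ≠ 0 := fun h => hf (by
      have := congrArg σ h
      rwa [σ.apply_symm_apply, map_zero] at this)
    have hord1 : 0 ≤ padOrd P (σ.symm f) := by
      rw [← hv, σ.apply_symm_apply]; exact hord
    obtain ⟨a, b, hb, hab⟩ := IsFractionRing.div_surjective (A := Pn n) (σ.symm f)
    have hb0 : b ≠ 0 := nonZeroDivisors.ne_zero hb
    have hbK := Fac_aM_ne b hb0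
    have hgb : σ.symm f * algebraMap (Pn n) (Kn n) b = algebraMap (Pn n) (Kn n) a := by
      rw [← hab]; exact div_mul_cancel₀ _ hbK
    have ha0 : a ≠ 0 := by
      intro h
      rw [h, map_zero] at hgb
      exact (mul_ne_zero hs0 hbK) hgb
    obtain ⟨a', ha', -⟩ := (PadV_fin hP.1 ha0).exists_eq_pow_mul_and_not_dvd
    obtain ⟨b', hb', hnb⟩ := (PadV_fin hP.1 hb0).exists_eq_pow_mul_and_not_dvd
    have e := po _ _ hs0 hbK
    rw [hgb, pal a ha0, pal b hb0] at e
    have hle : multiplicity P b ≤ multiplicity P a := by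
      have : (multiplicity P b : ℤ) ≤ multiplicity P a := by linarith
      exact_mod_cast this
    have hb'0 : b' ≠ 0 := fun h => hnb (h ▸ dvd_zero P)
    have hb'K := Fac_aM_ne b' hb'0
    refine ⟨_, mem_of_poly L σ hσ (P ^ (multiplicity P a - multiplicity P b) * a'),
      _, mem_of_poly L σ hσ b', ?_, ?_, ?_⟩
    · intro h
      apply hb'K
      have := congrArg σ.symm h
      rwa [σ.symm_apply_apply, map_zero] at this
    · rw [hv]
      exact Fac_padOrd_notdvd hExt hPad P hP.1 b' hb'0 hnb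
    · have hPK := Fac_aM_ne P hP.1.ne_zero
      have hpow : (algebraMap (Pn n) (Kn n) P) ^ (multiplicity P b) ≠ 0 := pow_ne_zero _ hPK
      have e1 : algebraMap (Pn n) (Kn n) a = (algebraMap (Pn n) (Kn n) P) ^ (multiplicity P b) *
          ((algebraMap (Pn n) (Kn n) P) ^ (multiplicity P a - multiplicity P b) *
            algebraMap (Pn n) (Kn n) a') := by
        conv_lhs => rw [ha']
        rw [map_mul, map_pow, ← mul_assoc, ← pow_add, Nat.add_sub_cancel' hle]
      have e2 : algebraMap (Pn n) (Kn n) b = (algebraMap (Pn n) (Kn n) P) ^ (multiplicity P b) *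
          algebraMap (Pn n) (Kn n) b' := by
        conv_lhs => rw [hb']
        rw [map_mul, map_pow]
      rw [e1, e2] at hgb
      have e3 : algebraMap (Pn n) (Kn n) b' * σ.symm f =
          algebraMap (Pn n) (Kn n) (P ^ (multiplicity P a - multiplicity P b) * a') := by
        rw [map_mul, map_pow]
        apply mul_left_cancel₀ hpow
        rw [← hgb]; ring
      have e4 := congrArg σ e3
      rwa [map_mul, σ.apply_symm_apply] at e4

theorem hTPR (_hTRO : StTRO) : StTPR := by
  intro K _ _ n L σ hσ v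
  constructor
  · exact dir1 L σ hσ v
  · rintro ⟨P, hP, hv⟩
    exact dir2 L σ hσ v P hP hv

end Pool.Agent.Helper7.GX
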